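import Pool.Agent.H78.STN.Stmts3

set_option autoImplicit false

namespace Pool.STN

/-- descending step number `i` -/
def chb_d (m i : ℕ) : Prop := F^[i] m % 3 = 0

instance chb_instd (m i : ℕ) : Decidable (chb_d m i) := inferInstanceAs (Decidable (_ = _))

/-- a local minimum at `j + 1` -/
def chb_s (m j : ℕ) : Prop := chb_d m j ∧ ¬ chb_d m (j + 1)

instance chb_insts (m j : ℕ) : Decidable (chb_s m j) := inferInstanceAs (Decidable (_ ∧ _))

/-- the sum of the powers of `8 / 5` -/
noncomputable def chb_cgs (n : ℕ) : ℝ := ∑ i ∈ Finset.range n, ((8 : ℝ) / 5) ^ i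

theorem chb_cgs_succ (n : ℕ) : chb_cgs (n + 1) = chb_cgs n + ((8 : ℝ) / 5) ^ n := by
  unfold chb_cgs; rw [Finset.sum_range_succ]

theorem chb_cgs_eq (n : ℕ) : chb_cgs n = 5 / 3 * (((8 : ℝ) / 5) ^ n - 1) := by
  induction n with
  | zero => simp [chb_cgs]
  | succ n ih => rw [chb_cgs_succ, ih, pow_succ]; ring

theorem chb_cnt (p : ℕ → Prop) [DecidablePred p] (i s : ℕ) (h : i < s) :
    ((Finset.Ico i s).filter p).card =
      (if p i then 1 else 0) + ((Finset.Ico (i + 1) s).filter p).card := by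
  have h1 : Finset.Ico i s = insert i (Finset.Ico (i + 1) s) := by
    ext x; simp only [Finset.mem_insert, Finset.mem_Ico]; omega
  rw [h1, Finset.filter_insert]
  by_cases hp : p i
  · rw [if_pos hp, if_pos hp, Finset.card_insert_of_notMem]
    · omega
    · simp
  · rw [if_neg hp, if_neg hp]; omega

theorem chb_succ (m i : ℕ) : F^[i + 1] m = F (F^[i] m) := Function.iterate_succ_apply' F i m

theorem chb_dd {m i : ℕ} (h : chb_d m i) : ∃ y : ℕ, F^[i] m = 3 * y ∧ F^[i + 1] m = 2 * y := by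
  unfold chb_d at h
  rw [chb_succ]
  generalize F^[i] m = x at *
  refine ⟨x / 3, by omega, ?_⟩
  unfold F
  rw [if_pos h]

theorem chb_nd {m i : ℕ} (h2 : 1 ≤ F^[i] m) (h : ¬ chb_d m i) : F^[i] m ≤ F^[i + 1] m := by
  unfold chb_d at h
  rw [chb_succ]
  generalize F^[i] m = x at *
  unfold F
  rw [if_neg h]
  split_ifs <;> omega

theorem chb_log35 : 5 * Real.log 3 ≤ 8 * Real.log 2 := by
  have h : Real.log ((3 : ℝ) ^ 5) ≤ Real.log ((2 : ℝ) ^ 8) :=
    Real.log_le_log (by positivity) (by norm_num)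
  rw [Real.log_pow, Real.log_pow] at h
  push_cast at h
  exact h

/-- the two statements of the induction -/
def chb_P (m s i : ℕ) (E : ℝ) : Prop :=
  (¬ chb_d m i → Real.log (F^[i] m) ≤ E * ((8 : ℝ) / 5) ^ ((Finset.Ico i s).filter (chb_s m)).card ∧
    (((Finset.Ico i s).filter (chb_d m)).card : ℝ) * Real.log 2 ≤
      chb_cgs ((Finset.Ico i s).filter (chb_s m)).card * E) ∧
  (chb_d m i → ∃ v t u : ℕ, ((Finset.Ico i s).filter (chb_s m)).card = v + 1 ∧ 1 ≤ u ∧
    F^[i] m = 3 ^ t * u ∧ (t : ℝ) * Real.log 2 + Real.log u ≤ E * ((8 : ℝ) / 5) ^ v ∧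
    (((Finset.Ico i s).filter (chb_d m)).card : ℝ) * Real.log 2 ≤ chb_cgs v * E + t * Real.log 2)

theorem chb_B {m s i : ℕ} {E : ℝ} (h : chb_P m s i E) :
    Real.log (F^[i] m) ≤ E * ((8 : ℝ) / 5) ^ ((Finset.Ico i s).filter (chb_s m)).card ∧
    (((Finset.Ico i s).filter (chb_d m)).card : ℝ) * Real.log 2 ≤
      chb_cgs ((Finset.Ico i s).filter (chb_s m)).card * E := by
  by_cases hd : chb_d m i
  · obtain ⟨v, t, u, h1, h2, h3, h4, h5⟩ := h.2 hd
    rw [h1]
    have hu : (1 : ℝ) ≤ u := by exact_mod_cast h2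
    have hlu : 0 ≤ Real.log (u : ℝ) := Real.log_nonneg hu
    have hl : Real.log ((F^[i] m : ℕ) : ℝ) = t * Real.log 3 + Real.log u := by
      rw [h3]; push_cast
      rw [Real.log_mul (by positivity) (by positivity), Real.log_pow]
    constructor
    · rw [hl, pow_succ]
      have h35 := chb_log35
      have ht : (0 : ℝ) ≤ t := Nat.cast_nonneg t
      have : (t : ℝ) * (5 * Real.log 3) ≤ t * (8 * Real.log 2) :=
        mul_le_mul_of_nonneg_left h35 ht
      nlinarith
    · rw [chb_cgs_succ]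
      nlinarith
  · exact h.1 hd

theorem chb_step {m s i : ℕ} {E : ℝ} (hi : i < s) (h2 : ∀ j, 2 ≤ F^[j] m)
    (h : chb_P m s (i + 1) E) : chb_P m s i E := by
  have hc1 := chb_cnt (chb_s m) i s hi
  have hc2 := chb_cnt (chb_d m) i s hi
  constructor
  · intro hd
    have hs : ¬ chb_s m i := fun hs => hd hs.1
    rw [if_neg hs, zero_add] at hc1
    rw [if_neg hd, zero_add] at hc2
    rw [hc1, hc2]
    have hB := chb_B h
    refine ⟨le_trans ?_ hB.1, hB.2⟩
    have hx : F^[i] m ≤ F^[i + 1] m := chb_nd (by have := h2 i; omega) hd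
    have h0 : 0 < F^[i] m := by have := h2 i; omega
    exact Real.log_le_log (by exact_mod_cast h0) (by exact_mod_cast hx)
  · intro hd
    obtain ⟨y, hy1, hy2⟩ := chb_dd hd
    have hy : 1 ≤ y := by have := h2 i; omega
    rw [if_pos hd] at hc2
    by_cases hd1 : chb_d m (i + 1)
    · obtain ⟨v, t, u, g1, g2, g3, g4, g5⟩ := h.2 hd1
      have hs : ¬ chb_s m i := fun hs => hs.2 hd1
      rw [if_neg hs, zero_add] at hc1
      have h2u : 2 ∣ u := by
        have h2d : 2 ∣ 3 ^ t * u := by rw [← g3, hy2]; exact Dvd.intro _ rfl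
        have hcop : Nat.Coprime 2 (3 ^ t) := Nat.Coprime.pow_right t (by norm_num)
        exact hcop.dvd_of_dvd_mul_left h2d
      obtain ⟨u', rfl⟩ := h2u
      have hu' : 1 ≤ u' := by omega
      have hyu : y = 3 ^ t * u' := by
        have : 2 * y = 2 * (3 ^ t * u') := by rw [← hy2, g3]; ring
        omega
      refine ⟨v, t + 1, u', by rw [hc1]; exact g1, hu', by rw [hy1, hyu, pow_succ]; ring, ?_, ?_⟩
      · have hl : Real.log ((2 * u' : ℕ) : ℝ) = Real.log 2 + Real.log u' := by
          push_cast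
          have : (0 : ℝ) < u' := by exact_mod_cast hu'
          rw [Real.log_mul (by norm_num) (ne_of_gt this)]
        rw [hl] at g4
        push_cast
        linarith
      · rw [hc2]; push_cast
        linarith
    · have hs : chb_s m i := ⟨hd, hd1⟩
      rw [if_pos hs] at hc1
      have hA := h.1 hd1
      refine ⟨((Finset.Ico (i + 1) s).filter (chb_s m)).card, 1, y, by omega, hy,
        by rw [hy1, pow_one], ?_, ?_⟩
      · have hl : Real.log ((F^[i + 1] m : ℕ) : ℝ) = Real.log 2 + Real.log y := by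
          rw [hy2]; push_cast
          have : (0 : ℝ) < y := by exact_mod_cast hy
          rw [Real.log_mul (by norm_num) (ne_of_gt this)]
        rw [hl] at hA
        push_cast
        linarith [hA.1]
      · rw [hc2]; push_cast
        linarith [hA.2]

theorem chb_CHN (m s : ℕ) (E : ℝ) (h2 : ∀ j, 2 ≤ F^[j] m) (hs : ¬ chb_d m s)
    (hE : Real.log (F^[s] m) ≤ E) : ∀ i ≤ s,
    Real.log (F^[i] m) ≤ E * ((8 : ℝ) / 5) ^ ((Finset.Ico i s).filter (chb_s m)).card ∧
    (((Finset.Ico i s).filter (chb_d m)).card : ℝ) * Real.log 2 ≤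
      chb_cgs ((Finset.Ico i s).filter (chb_s m)).card * E := by
  have key : ∀ d i : ℕ, s = i + d → chb_P m s i E := by
    intro d
    induction d with
    | zero =>
      intro i hi
      have hi' : s = i := hi
      subst hi'
      refine ⟨fun _ => ?_, fun hd => absurd hd hs⟩
      rw [Finset.Ico_self, Finset.filter_empty, Finset.filter_empty, Finset.card_empty, pow_zero,
        mul_one]
      refine ⟨hE, ?_⟩
      simp [chb_cgs]
    | succ d ih =>
      intro i hi
      exact chb_step (by omega) h2 (ih (i + 1) (by omega))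
  intro i hi
  exact chb_B (key (s - i) i (by omega))

theorem chb_nd' {m i : ℕ} (h2 : 2 ≤ F^[i] m) (h : ¬ chb_d m i) : F^[i] m < F^[i + 1] m := by
  unfold chb_d at h
  rw [chb_succ]
  generalize F^[i] m = x at *
  unfold F
  rw [if_neg h]
  split_ifs <;> omega

theorem CHB_thm : CHBStmt := by
  intro m0 k K hm hk hcyc hmin hlm
  have h2 : ∀ j, 2 ≤ F^[j] m0 := fun j => le_trans hm (hmin j)
  have hs : ¬ chb_d m0 k := by
    intro hd
    have hd0 : chb_d m0 0 := by
      unfold chb_d at hd ⊢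
      rw [hcyc] at hd
      exact hd
    obtain ⟨y, hy1, hy2⟩ := chb_dd hd0
    have h1 : m0 = 3 * y := hy1
    have h3 := hmin (0 + 1)
    rw [hy2] at h3
    omega
  have hE : Real.log (F^[k] m0) ≤ Real.log m0 := by rw [hcyc]
  have hmain := (chb_CHN m0 k (Real.log m0) h2 hs hE 0 (Nat.zero_le k)).2
  have hlog : 0 ≤ Real.log (m0 : ℝ) := Real.log_nonneg (by exact_mod_cast (by omega : 1 ≤ m0))
  have hdn : dnc m0 k = ((Finset.Ico 0 k).filter (chb_d m0)).card := by
    unfold dnc
    rw [Finset.range_eq_Ico]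
    rfl
  have hV : ((Finset.Ico 0 k).filter (chb_s m0)).card ≤ K := by
    refine le_trans (Finset.card_le_card ?_) hlm
    intro j hj
    rw [Finset.mem_filter, Finset.mem_Ico] at hj
    rw [Finset.mem_filter, Finset.mem_range]
    refine ⟨hj.1.2, ?_, ?_⟩
    · obtain ⟨y, hy1, hy2⟩ := chb_dd hj.2.1
      have := h2 j
      omega
    · exact chb_nd' (h2 (j + 1)) hj.2.2
  rw [← hdn] at hmain
  refine le_trans hmain ?_
  have hmono : chb_cgs ((Finset.Ico 0 k).filter (chb_s m0)).card ≤ chb_cgs K := by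
    unfold chb_cgs
    exact Finset.sum_le_sum_of_subset_of_nonneg (Finset.range_mono hV)
      (fun i _ _ => by positivity)
  exact mul_le_mul_of_nonneg_right hmono hlog

end Pool.STN
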